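import Pool.Agent.H98.SD.TargetsM
import Pool.Agent.H98.SD.Lib
import Pool.Agent.H99.SD.CDX

/-!
# Row BDX (MP_e37c09_lc): a good code which is equivalent to `x`
-/

open Ordinal Cardinal Order Set
open scoped ZFSet

universe u

namespace Pool.Agent.H54.SD

open _root_.HD _root_.HD.SD
open _root_.HD.NF (w0)

/-- `c` is the least code of its trace on `m`. -/
def J (en : Ordinal.{u} → ZFSet.{u}) (x : ZFSet.{u}) (m c : Ordinal.{u}) : Prop :=
  ∀ c' < c, ¬ ∀ a < m, (a ∈ Sc en x c ↔ a ∈ Sc en x c')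

theorem dx_J (hDXS : T_DXS.{u}) {en : Ordinal.{u} → ZFSet.{u}} (hen : EN en) :
    DX fun x w => J en x (w 1) (w 0) := by
  have h0 := (hDXS en hen).1
  refine DX.allLt (S := fun c' x w => ¬ ∀ a < w 1, (a ∈ Sc en x (w 0) ↔ a ∈ Sc en x c')) 0
    (DX.not ?_)
  refine DX.allLt (S := fun a x w => (a ∈ Sc en x (w 1) ↔ a ∈ Sc en x (w 0))) 2 ?_
  exact (h0.ren fun n => if n = 0 then 0 else 2).iff h0

/-- `b` is in the `i`-th set with parameter `m`. -/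
def Q0 (en : Ordinal.{u} → ZFSet.{u}) (x : ZFSet.{u}) (b m i : Ordinal.{u}) : Prop :=
  ∃ c, nth {c | J en x m c} i c ∧ b ∈ Sc en x c

theorem dx_Q0 (hDXS : T_DXS.{u}) (hDXN : T_DXN.{u})
    {en : Ordinal.{u} → ZFSet.{u}} (hen : EN en) :
    DX fun x w => Q0 en x (w 0) (w 1) (w 2) := by
  have h0 := (hDXS en hen).1
  refine DX.ex (S := fun c x w => nth {c | J en x (w 1) c} (w 2) c ∧ w 0 ∈ Sc en x c)
    (DX.and ?_ ?_)
  · exact dx_nth hDXN (dx_J hDXS hen) 3 0 (fun n => n + 2)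
  · exact h0.ren fun n => if n = 0 then 1 else 0

/-- `b` is in the countable set -/
def Q2 (en : Ordinal.{u} → ZFSet.{u}) (cD cu τ : Ordinal.{u}) (x : ZFSet.{u}) (b : Ordinal.{u}) :
    Prop := ∃ i < τ, i ∈ Sc en x cu ∧ nth {b | b ∈ Sc en x cD} i b

theorem dx_Q2 (hDXS : T_DXS.{u}) (hDXN : T_DXN.{u})
    {en : Ordinal.{u} → ZFSet.{u}} (hen : EN en) (cD cu τ : Ordinal.{u}) :
    DX fun x w => Q2 en cD cu τ x (w 0) := by
  have h0 := (hDXS en hen).1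
  refine DX.exLtc (S := fun i x w => i ∈ Sc en x cu ∧ nth {b | b ∈ Sc en x cD} i (w 0)) τ
    (DX.and ?_ ?_)
  · exact DX.sub (S := fun c x w => w 0 ∈ Sc en x c) cu (h0.ren fun n => if n = 0 then 1 else 0)
  · refine DX.sub (S := fun c x w => nth {b | b ∈ Sc en x c} (w 0) (w 1)) cD ?_
    exact dx_nth hDXN h0 1 2 (fun n => n)

/-- the table -/
def R (en : Ordinal.{u} → ZFSet.{u}) (t : Ordinal.{u} → Ordinal.{u} → Ordinal.{u})
    (cD cu τ : Ordinal.{u}) (x : ZFSet.{u}) (b η : Ordinal.{u}) : Prop :=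
  (∃ m i, η = t 0 (t m i) ∧ Q0 en x b m i) ∨ (η = t 1 0 ∧ b.toZFSet ∈ x) ∨
    (η = t 1 1 ∧ Q2 en cD cu τ x b)

theorem dx_R (hDXS : T_DXS.{u}) (hDXN : T_DXN.{u})
    {en : Ordinal.{u} → ZFSet.{u}} (hen : EN en) {t : Ordinal.{u} → Ordinal.{u} → Ordinal.{u}}
    (ht : PF t) (cD cu τ : Ordinal.{u}) :
    DX fun x w => R en t cD cu τ x (w 0) (w 1) := by
  refine DX.or ?_ (DX.or ?_ ?_)
  · refine DX.ex (S := fun m x w => ∃ i, w 1 = t 0 (t m i) ∧ Q0 en x (w 0) m i) ?_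
    refine DX.ex (S := fun i x w => w 2 = t 0 (t (w 0) i) ∧ Q0 en x (w 1) (w 0) i) (DX.and ?_ ?_)
    · refine DX.o ?_
      refine (DO.ex (R := fun z w => z = t (w 1) (w 0) ∧ w 3 = t 0 z) (DO.and ?_ ?_)).congr
        fun w => ?_
      · exact (ht.dz.ren fun n => if n = 2 then 0 else if n = 0 then 2 else 1).congr
          fun w => Iff.rfl
      · refine DO.sub (R := fun z w => w 4 = t z (w 0)) 0 ?_
        exact (ht.dz.ren fun n => if n = 2 then 5 else if n = 0 then 0 else 1).congr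
          fun w => Iff.rfl
      · simp
    · exact ((dx_Q0 hDXS hDXN hen).ren fun n => if n = 0 then 2 else if n = 1 then 1 else 0).congr
        fun x w => Iff.rfl
  · exact (DX.o (DO.eqc 1 _)).and (DX.mem 0)
  · exact (DX.o (DO.eqc 1 _)).and (dx_Q2 hDXS hDXN hen cD cu τ)

/-- the predicate for the code -/
theorem dx_P (hDXS : T_DXS.{u}) (hDXN : T_DXN.{u})
    {en : Ordinal.{u} → ZFSet.{u}} (hen : EN en) {t : Ordinal.{u} → Ordinal.{u} → Ordinal.{u}}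
    (ht : PF t) (cD cu τ l : Ordinal.{u}) :
    DX fun x w => ∃ η < l, ∃ b < l, w 0 = t η b ∧ R en t cD cu τ x b η := by
  refine DX.exLtc (S := fun η x w => ∃ b < l, w 0 = t η b ∧ R en t cD cu τ x b η) l ?_
  refine DX.exLtc (S := fun b x w => w 1 = t (w 0) b ∧ R en t cD cu τ x b (w 0)) l (DX.and ?_ ?_)
  · exact DX.o ((ht.dz.ren fun n => if n = 2 then 2 else if n = 0 then 1 else 0).congr
      fun w => Iff.rfl)
  · exact dx_R hDXS hDXN hen ht cD cu τ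

/-- The number of the least codes for traces on `m` is less than `L`. -/
theorem J_ex {en : Ordinal.{u} → ZFSet.{u}} {L : Cardinal.{u}}
    (lim : ∀ c < L, (2 : Cardinal.{u}) ^ c < L) (x : ZFSet.{u}) {m : Ordinal.{u}}
    (hm : m < L.ord) {c : Ordinal.{u}} (hc : J en x m c) :
    ∃ i < L.ord, nth {c | J en x m c} i c := by
  obtain ⟨v1, v2, v3, -⟩ := All.vh {c | J en x m c}
  obtain ⟨a, -, ha⟩ := v1 c hc
  refine ⟨a, ?_, ha⟩
  by_contra hcon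
  have hLa : L.ord ≤ a := not_lt.1 hcon
  have h1 : ∀ i, ∃ z, i < L.ord → nth {c | J en x m c} i z := by
    intro i
    by_cases hi : i < L.ord
    · obtain ⟨y, -, hy⟩ := v3 a c ha i (hi.trans_le hLa)
      exact ⟨y, fun _ => hy⟩
    · exact ⟨0, fun h => absurd h hi⟩
  choose f hf using h1
  let F : Iio L.ord → Set (Iio m) := fun i => {a | a.1 ∈ Sc en x (f i.1)}
  have hF : Function.Injective F := by
    intro i k h
    by_contra hne
    have hne' : i.1 ≠ k.1 := fun h => hne (Subtype.ext h)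
    have key : ∀ i < L.ord, ∀ k < L.ord, i < k →
        (∀ a < m, (a ∈ Sc en x (f i) ↔ a ∈ Sc en x (f k))) → False := by
      intro i hi k hk hik h
      have h2 : f i < f k := (v2 _ _ _ _ (hf i hi) (hf k hk)).1 hik
      exact (hf k hk).1 (f i) h2 fun a ha => (h a ha).symm
    have h3 : ∀ a < m, (a ∈ Sc en x (f i.1) ↔ a ∈ Sc en x (f k.1)) := fun a ha => by
      have := Set.ext_iff.1 h ⟨a, ha⟩
      exact this
    rcases lt_or_gt_of_ne hne' with h4 | h4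
    · exact key _ i.2 _ k.2 h4 h3
    · exact key _ k.2 _ i.2 h4 fun a ha => (h3 a ha).symm
  have h5 := Cardinal.mk_le_of_injective hF
  rw [Cardinal.mk_set, Cardinal.mk_Iio_ordinal, Cardinal.mk_Iio_ordinal, Cardinal.card_ord,
    ← Cardinal.lift_two_power, Cardinal.lift_le] at h5
  exact absurd (lim _ (Cardinal.lt_ord.1 hm)) (not_lt.2 h5)

/-- The traces are in the table. -/
theorem Q0_tr (hODX : T_ODX.{u}) {en : Ordinal.{u} → ZFSet.{u}} (hen : EN en) {L : Cardinal.{u}}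
    (lim : ∀ c < L, (2 : Cardinal.{u}) ^ c < L) {x : ZFSet.{u}} {m : Ordinal.{u}}
    (hm : m < L.ord) (bd : ∀ z, z ⊆ m.toZFSet → NF.ODp x z) (s : Set Ordinal.{u}) :
    ∃ i < L.ord, ∀ a < m, (Q0 en x a m i ↔ a ∈ s) := by
  have h0 : NF.ODp x (os m s) := bd _ fun z hz => by
    obtain ⟨a, ha, -, rfl⟩ := mem_os.1 hz
    exact mem_toZFSet_iff.2 ⟨a, ha, rfl⟩
  obtain ⟨c, hc⟩ := (hODX en hen x m).2.1 _ h0
  have hc' : ∀ b < m, (b ∈ Sc en x c ↔ b ∈ s) := fun b hb => by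
    rw [hc b hb, mem_os]
    constructor
    · rintro ⟨a, ha, h1, h2⟩
      rwa [Ordinal.toZFSet_injective h2]
    · exact fun h => ⟨b, hb, h, rfl⟩
  have hne : ({c | ∀ b < m, (b ∈ Sc en x c ↔ b ∈ s)} : Set Ordinal.{u}).Nonempty := ⟨c, hc'⟩
  set c0 := sInf {c | ∀ b < m, (b ∈ Sc en x c ↔ b ∈ s)} with hc0
  have h1 : ∀ b < m, (b ∈ Sc en x c0 ↔ b ∈ s) := csInf_mem hne
  have h2 : J en x m c0 := by
    intro c' hlt hc''
    have : c' ∈ {c | ∀ b < m, (b ∈ Sc en x c ↔ b ∈ s)} := fun b hb => by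
      rw [← hc'' b hb]
      exact h1 b hb
    exact absurd (csInf_le' this) (not_le.2 hlt)
  obtain ⟨i, hi, h3⟩ := J_ex lim x hm h2
  refine ⟨i, hi, fun a ha => ⟨?_, fun h => ⟨c0, h3, (h1 a ha).2 h⟩⟩⟩
  rintro ⟨c1, h4, h5⟩
  rw [nth_val h4 h3] at h5
  exact (h1 a ha).1 h5

/-- The `i`-th element depends only on the elements below it. -/
theorem nth_cg {X Y : Set Ordinal.{u}} {l i z : Ordinal.{u}} (hz : z < l)
    (h : ∀ b < l, (b ∈ X ↔ b ∈ Y)) (hn : nth X i z) : nth Y i z := by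
  obtain ⟨h1, g, h2, h3, h4⟩ := hn
  exact ⟨(h z hz).1 h1, g, h2, fun y hy => ⟨(h _ ((h3 y hy).2.trans hz)).1 (h3 y hy).1,
    (h3 y hy).2⟩, fun y hy hyz => h4 y ((h y (hyz.trans hz)).2 hy) hyz⟩

/-- The countable cofinal set. -/
theorem Q2_ex (hODX : T_ODX.{u}) {en : Ordinal.{u} → ZFSet.{u}} (hen : EN en) {L : Cardinal.{u}}
    (hL : L.ord.cof = ℵ₀) {x : ZFSet.{u}}
    (hbd : ∀ m < L.ord, ∀ z, z ⊆ m.toZFSet → NF.ODp x z)
    (hsg : ∃ D, NF.ODp x D ∧ D ⊆ L.ord.toZFSet ∧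
      (∀ m < L.ord, ∃ a : Ordinal.{u}, m < a ∧ a.toZFSet ∈ D) ∧
      ∃ τ < L.ord, ∃ g : Ordinal.{u} → Ordinal.{u}, ∀ a : Ordinal.{u}, a.toZFSet ∈ D →
        ∃ i < τ, g i = a) :
    ∃ cD cu τ : Ordinal.{u}, ∃ d : ℕ → Ordinal.{u}, (∀ n, d n < L.ord) ∧
      (∀ m < L.ord, ∃ n, m < d n) ∧ ∀ b < L.ord, (Q2 en cD cu τ x b ↔ ∃ n, b = d n) := by
  obtain ⟨D, hD, hDs, hDc, τ, hτ, g, hg⟩ := hsg
  have hfew : Few L.ord {a : Ordinal.{u} | a.toZFSet ∈ D} := ⟨τ, hτ, g, hg⟩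
  obtain ⟨τ', hτ', e1, e2⟩ := enum hfew
  obtain ⟨s, hs, hs'⟩ := H99.SD.cof_seq hL
  choose d hd1 hd2 using fun n => hDc (s n) (hs n)
  choose k hk1 hk2 using fun n => e2 (d n) (hd2 n)
  have hdl : ∀ n, d n < L.ord := fun n => by
    obtain ⟨a, ha, h1⟩ := mem_toZFSet_iff.1 (hDs (hd2 n))
    rwa [Ordinal.toZFSet_injective h1] at ha
  obtain ⟨cD, hcD⟩ := (hODX en hen x L.ord).2.1 D hD
  obtain ⟨cu, hcu⟩ := (hODX en hen x τ').2.1 (os τ' {i | ∃ n, i = k n})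
    (hbd τ' hτ' _ fun z hz => by
      obtain ⟨a, ha, -, rfl⟩ := mem_os.1 hz
      exact mem_toZFSet_iff.2 ⟨a, ha, rfl⟩)
  refine ⟨cD, cu, τ', d, hdl, fun m hm => ?_, fun b hb => ⟨?_, ?_⟩⟩
  · obtain ⟨n, hn⟩ := hs' m hm
    exact ⟨n, hn.trans (hd1 n)⟩
  · rintro ⟨i, hi, h1, h2⟩
    rw [hcu i hi, mem_os] at h1
    obtain ⟨a, -, ⟨n, hn⟩, h3⟩ := h1
    obtain rfl := Ordinal.toZFSet_injective h3
    refine ⟨n, ?_⟩
    have h4 : nth {a : Ordinal.{u} | a.toZFSet ∈ D} i b := nth_cg hb hcD h2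
    rw [hn] at h4
    exact nth_val h4 (hk2 n)
  · rintro ⟨n, rfl⟩
    refine ⟨k n, hk1 n, ?_, nth_cg hb (fun b hb => (hcD b hb).symm) (hk2 n)⟩
    rw [hcu _ (hk1 n), mem_os]
    exact ⟨k n, hk1 n, ⟨n, rfl⟩, rfl⟩

theorem pf_BDX (hDXS : T_DXS.{u}) (hDXN : T_DXN.{u}) (hDXD : T_DXD.{u}) (hODX : T_ODX.{u})
    (hODY : T_ODY.{u}) : T_BDX.{u} := by
  intro en t L hSt hL x hx
  have hen := hSt.hen
  have ht := hSt.ht
  have hinj := ht.inj
  have hlt := ht.lt L hSt.unc.le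
  have h1 : (1 : Ordinal.{u}) < L.ord := by
    have : ω ≤ L.ord := by
      rw [← Cardinal.ord_aleph0]
      exact Cardinal.ord_le_ord.2 hSt.unc.le
    exact Ordinal.one_lt_omega0.trans_le this
  have h0 : (0 : Ordinal.{u}) < L.ord := zero_lt_one.trans h1
  obtain ⟨cD, cu, τ, d, hd1, hd2, hd3⟩ := Q2_ex hODX hen hL hx.bd hx.sg
  set P : ZFSet.{u} → (ℕ → Ordinal.{u}) → Prop := fun x w =>
    ∃ η < L.ord, ∃ b < L.ord, w 0 = t η b ∧ R en t cD cu τ x b η with hP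
  have hPd : DX P := dx_P hDXS hDXN hen ht cD cu τ L.ord
  set x' : ZFSet.{u} := os L.ord {a | P x (cns a fun _ => 0)} with hx'
  have hdec : ∀ η < L.ord, ∀ b < L.ord, (b ∈ dec t x' η ↔ R en t cD cu τ x b η) := by
    intro η hη b hb
    constructor
    · intro h
      have h' : (t η b).toZFSet ∈ x' := h
      obtain ⟨a, -, ⟨η', hη', b', hb', h2, h3⟩, h4⟩ := mem_os.1 h'
      obtain rfl := Ordinal.toZFSet_injective h4
      obtain ⟨rfl, rfl⟩ := hinj _ _ _ _ h2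
      exact h3
    · intro h
      show (t η b).toZFSet ∈ x'
      exact mem_os.2 ⟨t η b, hlt η hη b hb, ⟨η, hη, b, hb, rfl, h⟩, rfl⟩
  have hsub : x' ⊆ L.ord.toZFSet := fun z hz => by
    obtain ⟨a, ha, -, rfl⟩ := mem_os.1 hz
    exact mem_toZFSet_iff.2 ⟨a, ha, rfl⟩
  refine ⟨x', ⟨hsub, fun m hm s => ?_⟩, ?_, hODY P hPd x L.ord _, ?_⟩
  · obtain ⟨i, hi, h2⟩ := Q0_tr hODX hen hSt.lim hm (hx.bd m hm) s
    have h3 : t 0 (t m i) < L.ord := hlt 0 h0 _ (hlt m hm i hi)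
    refine ⟨_, h3, fun a ha => ?_⟩
    rw [hdec _ h3 a (ha.trans hm), ← h2 a ha]
    constructor
    · rintro (⟨m', i', h4, h5⟩ | ⟨h4, -⟩ | ⟨h4, -⟩)
      · obtain ⟨-, h6⟩ := hinj _ _ _ _ h4
        obtain ⟨rfl, rfl⟩ := hinj _ _ _ _ h6
        exact h5
      · exact absurd (hinj _ _ _ _ h4).1.symm one_ne_zero
      · exact absurd (hinj _ _ _ _ h4).1.symm one_ne_zero
    · exact fun h => Or.inl ⟨m, i, rfl, h⟩
  · have h3 : t 1 1 < L.ord := hlt 1 h1 1 h1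
    have hd4 : ∀ a < L.ord, (a ∈ dec t x' (t 1 1) ↔ ∃ n, a = d n) := fun a ha => by
      rw [hdec _ h3 a ha, ← hd3 a ha]
      constructor
      · rintro (⟨m', i', h4, -⟩ | ⟨h4, -⟩ | ⟨-, h4⟩)
        · exact absurd (hinj _ _ _ _ h4).1 one_ne_zero
        · exact absurd (hinj _ _ _ _ h4).2 one_ne_zero
        · exact h4
      · exact fun h => Or.inr (Or.inr ⟨rfl, h⟩)
    classical
    refine ⟨fun x w => w 0 ∈ dec t x (w 1) ∧ w 0 < w 2, (hDXD t ht).and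
      (DX.o (DO.lt 0 2)), cns (t 1 1) (fun _ => L.ord), fun a ha => ha.2, fun m hm => ?_,
      fun c => if hc : ∃ n : ℕ, c = n then d hc.choose else 0, fun a ha => ?_⟩
    · obtain ⟨n, hn⟩ := hd2 m hm
      exact ⟨d n, ⟨(hd4 _ (hd1 n)).2 ⟨n, rfl⟩, hd1 n⟩, hn⟩
    · obtain ⟨n, rfl⟩ := (hd4 a ha.2).1 ha.1
      have hn : ∃ k : ℕ, (n : Ordinal.{u}) = k := ⟨n, rfl⟩
      refine ⟨n, ?_, ?_⟩
      · rw [_root_.HD.NF.w0, Cardinal.ord_aleph0]
        exact Ordinal.natCast_lt_omega0 n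
      · refine (dif_pos hn).trans ?_
        have : hn.choose = n := by
          have h2 := hn.choose_spec
          exact_mod_cast h2.symm
        rw [this]
  · have h3 : t 1 0 < L.ord := hlt 1 h1 0 h0
    rw [H99.SD.eq_os hx.sub (X := dec t x' (t 1 0)) fun a ha => ?_]
    · exact H99.SD.odp_dec hDXD hODY ht x' _ _
    · rw [hdec _ h3 a ha]
      constructor
      · rintro (⟨m', i', h4, -⟩ | ⟨-, h4⟩ | ⟨h4, -⟩)
        · exact absurd (hinj _ _ _ _ h4).1 one_ne_zero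
        · exact h4
        · exact absurd (hinj _ _ _ _ h4).2.symm one_ne_zero
      · exact fun h => Or.inr (Or.inl ⟨rfl, h⟩)

end Pool.Agent.H54.SD
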