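import Pool.Agent.H98.SD.TargetsE
import Pool.Agent.H54.SD.BDX

/-!
# Row BDE (MP_e37c09_lc): an enumeration of the bounded subsets and a countable cofinal subset
-/

open Ordinal Cardinal Order Set
open scoped ZFSet

universe u

namespace Pool.Agent.H54.SD

open _root_.HD _root_.HD.SD
open _root_.HD.NF (w0)

/-- the enumeration -/
def E (en : Ordinal.{u} → ZFSet.{u}) (t : Ordinal.{u} → Ordinal.{u} → Ordinal.{u})
    (x : ZFSet.{u}) (ξ : Ordinal.{u}) : Set Ordinal.{u} :=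
  {b | ∃ m i, ξ = t m i ∧ Q0 en x b m i}

theorem dx_E (hDXS : T_DXS.{u}) (hDXN : T_DXN.{u})
    {en : Ordinal.{u} → ZFSet.{u}} (hen : EN en) {t : Ordinal.{u} → Ordinal.{u} → Ordinal.{u}}
    (ht : PF t) : DX fun x w => w 0 ∈ E en t x (w 1) := by
  refine DX.ex (S := fun m x w => ∃ i, w 1 = t m i ∧ Q0 en x (w 0) m i) ?_
  refine DX.ex (S := fun i x w => w 2 = t (w 0) i ∧ Q0 en x (w 1) (w 0) i) (DX.and ?_ ?_)
  · exact DX.o ((ht.dz.ren fun n => if n = 2 then 3 else if n = 0 then 1 else 0).congr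
      fun w => Iff.rfl)
  · exact ((dx_Q0 hDXS hDXN hen).ren fun n => if n = 0 then 2 else if n = 1 then 1 else 0).congr
      fun x w => Iff.rfl

theorem pf_BDE (hDXS : T_DXS.{u}) (hDXN : T_DXN.{u}) (hODX : T_ODX.{u}) : T_BDE.{u} := by
  intro en t L hSt hL x hx
  have hen := hSt.hen
  have ht := hSt.ht
  have hinj := ht.inj
  have hlt := ht.lt L hSt.unc.le
  refine ⟨⟨E en t, dx_E hDXS hDXN hen ht, fun m hm s => ?_⟩, ?_⟩
  · obtain ⟨i, hi, h2⟩ := Q0_tr hODX hen hSt.lim hm (hx.bd m hm) s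
    refine ⟨t m i, hlt m hm i hi, fun a ha => ?_⟩
    rw [← h2 a ha]
    constructor
    · rintro ⟨m', i', h4, h5⟩
      obtain ⟨rfl, rfl⟩ := hinj _ _ _ _ h4
      exact h5
    · exact fun h => ⟨m, i, rfl, h⟩
  · classical
    obtain ⟨cD, cu, τ, d, hd1, hd2, hd3⟩ := Q2_ex hODX hen hL hx.bd hx.sg
    refine ⟨fun x w => Q2 en cD cu τ x (w 0) ∧ w 0 < L.ord,
      (dx_Q2 hDXS hDXN hen cD cu τ).and (DX.o (DO.ltc 0 _)), fun _ => 0, fun a ha => ha.2,
      fun m hm => ?_, fun c => if hc : ∃ n : ℕ, c = n then d hc.choose else 0, fun a ha => ?_⟩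
    · obtain ⟨n, hn⟩ := hd2 m hm
      exact ⟨d n, ⟨(hd3 _ (hd1 n)).2 ⟨n, rfl⟩, hd1 n⟩, hn⟩
    · obtain ⟨n, rfl⟩ := (hd3 a ha.2).1 ha.1
      have hn : ∃ k : ℕ, (n : Ordinal.{u}) = k := ⟨n, rfl⟩
      refine ⟨n, ?_, ?_⟩
      · rw [_root_.HD.NF.w0, Cardinal.ord_aleph0]
        exact Ordinal.natCast_lt_omega0 n
      · refine (dif_pos hn).trans ?_
        have : hn.choose = n := by
          have h2 := hn.choose_spec
          exact_mod_cast h2.symm
        rw [this]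

end Pool.Agent.H54.SD
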