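import Pool.Agent.H76.SD.Targets

set_option autoImplicit false

namespace Pool.Agent.H54.SD

open Pool.Agent.H76.SD
open Pool.Agent.H1.LP (Loc PD Viol Sys supp ip val Agree FS Typ kk S_MAIN)

theorem bln : T_BLN := by
  intro E g B t r hE hB hg hEB hr N T hT h
  set P : ℕ := (4 * E + 1) * B with hP
  have hP65 : 65 ≤ P := by
    have h1 : 65 * 1 ≤ (4 * E + 1) * B := Nat.mul_le_mul (by omega) hB
    omega
  set La : ℝ := (2 : ℝ) ^ P with hLa
  set ε : ℝ := (1 / 2 : ℝ) ^ t with hε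
  have hLa1 : 1 ≤ La := one_le_pow₀ (by norm_num)
  have hε0 : 0 < ε := by positivity
  have hε1 : ε ≤ 1 := pow_le_one₀ (by norm_num) (by norm_num)
  have h2g : (0 : ℝ) < 2 ^ g := by positivity
  have hεt : ε * 2 ^ t = 1 := by
    rw [hε, ← mul_pow]
    norm_num
  -- the ratio
  have hkey : 16 * La ≤ ε * 2 ^ g := by
    have h1 : (2 : ℝ) ^ (4 + P + t) ≤ 2 ^ g := pow_le_pow_right₀ (by norm_num) (by omega)
    have h2 : (2 : ℝ) ^ (4 + P + t) = 16 * La * 2 ^ t := by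
      rw [pow_add, pow_add]
      norm_num
      rfl
    rw [h2] at h1
    calc 16 * La = 16 * La * (ε * 2 ^ t) := by rw [hεt, mul_one]
      _ = ε * (16 * La * 2 ^ t) := by ring
      _ ≤ ε * 2 ^ g := mul_le_mul_of_nonneg_left h1 hε0.le
  have hg4 : (4 : ℝ) / 2 ^ g ≤ 1 := by
    rw [div_le_one h2g]
    have h1 : (2 : ℝ) ^ 2 ≤ 2 ^ g := pow_le_pow_right₀ (by norm_num) (by omega)
    linarith
  set σ : ℝ := 1 - 4 / 2 ^ g with hσ
  have hσ0 : 0 ≤ σ := by linarith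
  have hρ : La + ε / 2 ≤ σ * (La + ε) := by
    have h1 : 4 / 2 ^ g * (La + ε) ≤ ε / 2 := by
      rw [div_mul_eq_mul_div, div_le_iff₀ h2g]
      nlinarith
    rw [hσ]
    nlinarith
  have hK : (La + ε / 2) ^ (2 * 2 ^ (4 * g)) ≤
      σ ^ (2 * 2 ^ (4 * g)) * (La + ε) ^ (2 * 2 ^ (4 * g)) := by
    rw [← mul_pow]
    exact pow_le_pow_left₀ (by positivity) hρ _
  have hc0 : 0 ≤ 8 * La * r / ε := by positivity
  have hN : N ≤ 8 * La * r / ε * σ ^ (2 * 2 ^ (4 * g)) * T := by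
    have hpos : 0 < (La + ε) ^ (2 * 2 ^ (4 * g)) := by positivity
    refine le_of_mul_le_mul_right ?_ hpos
    calc N * (La + ε) ^ (2 * 2 ^ (4 * g))
        ≤ 8 * La * r / ε * (La + ε / 2) ^ (2 * 2 ^ (4 * g)) * T := h
      _ ≤ 8 * La * r / ε * (σ ^ (2 * 2 ^ (4 * g)) * (La + ε) ^ (2 * 2 ^ (4 * g))) * T :=
          mul_le_mul_of_nonneg_right (mul_le_mul_of_nonneg_left hK hc0) hT
      _ = 8 * La * r / ε * σ ^ (2 * 2 ^ (4 * g)) * T * (La + ε) ^ (2 * 2 ^ (4 * g)) := by ring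
  -- the power of σ
  have hσg : σ ^ (2 ^ g) ≤ 1 / 2 := by
    have h1 : σ ≤ Real.exp (-(4 / 2 ^ g)) := by
      have := Real.add_one_le_exp (-(4 / 2 ^ g : ℝ))
      rw [hσ]
      linarith
    have h2 : σ ^ (2 ^ g) ≤ Real.exp (-(4 / 2 ^ g)) ^ (2 ^ g) := pow_le_pow_left₀ hσ0 h1 _
    rw [← Real.exp_nat_mul] at h2
    have h3 : ((2 ^ g : ℕ) : ℝ) * (-(4 / 2 ^ g)) = -4 := by
      push_cast
      field_simp
    rw [h3] at h2
    have h4 : Real.exp (-4) ≤ 1 / 2 := by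
      rw [Real.exp_neg, one_div]
      apply inv_anti₀ (by norm_num)
      have := Real.add_one_le_exp (4 : ℝ)
      linarith
    linarith
  have hσK : σ ^ (2 * 2 ^ (4 * g)) ≤ (1 / 2) ^ (2 * 2 ^ (3 * g)) := by
    have e : 2 * 2 ^ (4 * g) = 2 ^ g * (2 * 2 ^ (3 * g)) := by
      rw [show 4 * g = g + 3 * g by ring, pow_add]
      ring
    rw [e, pow_mul]
    exact pow_le_pow_left₀ (pow_nonneg hσ0 _) hσg _
  -- the factors
  have hE1 : ((E : ℝ) + 1) ^ B ≤ 2 ^ (4 * g) := by exact_mod_cast hEB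
  have hr1 : (r : ℝ) ≤ 2 ^ 2 ^ (2 * g) := by exact_mod_cast hr
  have hc : 8 * La / ε ≤ 2 ^ (g - 1) := by
    have e : 8 * La / ε = 2 ^ (3 + P + t) := by
      rw [div_eq_iff hε0.ne', pow_add, pow_add]
      calc 8 * La = 8 * La * (ε * 2 ^ t) := by rw [hεt, mul_one]
        _ = _ := by
          rw [hLa]
          ring
    rw [e]
    exact pow_le_pow_right₀ (by norm_num) (by omega)
  have hexp : 4 * g + (g - 1) + 2 ^ (2 * g) + 2 ^ (2 * g) ≤ 2 * 2 ^ (3 * g) := by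
    have e : 2 ^ (3 * g) = 2 ^ g * 2 ^ (2 * g) := by
      rw [← pow_add]
      congr 1
      ring
    rw [e]
    have h1 : g + 1 ≤ 2 ^ g := Nat.lt_two_pow_self
    have h2 : 4 ≤ 2 ^ (2 * g) := by
      calc 4 = 2 ^ 2 := by norm_num
        _ ≤ 2 ^ (2 * g) := Nat.pow_le_pow_right (by norm_num) (by omega)
    have h3 : (g + 1) * 2 ^ (2 * g) ≤ 2 ^ g * 2 ^ (2 * g) := Nat.mul_le_mul_right _ h1
    have h4 : g * 4 ≤ g * 2 ^ (2 * g) := Nat.mul_le_mul_left _ h2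
    have h5 : (g + 1) * 2 ^ (2 * g) = g * 2 ^ (2 * g) + 2 ^ (2 * g) := by ring
    omega
  calc ((E : ℝ) + 1) ^ B * N
      ≤ ((E : ℝ) + 1) ^ B * (8 * La * r / ε * σ ^ (2 * 2 ^ (4 * g)) * T) :=
        mul_le_mul_of_nonneg_left hN (by positivity)
    _ = (((E : ℝ) + 1) ^ B * (8 * La / ε) * r * σ ^ (2 * 2 ^ (4 * g))) * T := by ring
    _ ≤ (2 ^ (4 * g) * 2 ^ (g - 1) * 2 ^ 2 ^ (2 * g) * (1 / 2) ^ (2 * 2 ^ (3 * g))) * T := by
        apply mul_le_mul_of_nonneg_right _ hT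
        have p1 : 0 ≤ 8 * La / ε := by positivity
        have p2 : 0 ≤ ((E : ℝ) + 1) ^ B := by positivity
        gcongr
    _ ≤ (1 / 2) ^ 2 ^ (2 * g) * T := by
        apply mul_le_mul_of_nonneg_right _ hT
        rw [← pow_add, ← pow_add, one_div, inv_pow, inv_pow]
        rw [← div_eq_mul_inv, div_le_iff₀ (by positivity), inv_mul_eq_div,
          le_div_iff₀ (by positivity), ← pow_add]
        exact pow_le_pow_right₀ (by norm_num) hexp

end Pool.Agent.H54.SD
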