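import Pool.Agent.H98.SD.Fin3
import Pool.Agent.H29.SD.RFK

/-!
# MP_e37c09_lc: above an extendible cardinal, covering or measures, for an arbitrary set `x` and an
arbitrary strong limit cardinal `L`
-/

open Ordinal Cardinal Order Set
open scoped ZFSet

universe u

namespace HD.SD

open HD.NF (w0)

/-- Each subset of `L` with fewer than `δ` elements is contained in a subset of `L` which has fewer
than `δ` elements and is definable from ordinals and `x`. -/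
def CvD (δ : Ordinal.{u}) (L : Cardinal.{u}) (x : ZFSet.{u}) : Prop :=
  ∀ τ < δ, ∀ y : Ordinal.{u} → Ordinal.{u}, (∀ i < τ, y i < L.ord) →
    ∃ D, NF.ODp x D ∧ D ⊆ L.ord.toZFSet ∧ (∀ i < τ, (y i).toZFSet ∈ D) ∧
      ∃ τ' < δ, ∃ g : Ordinal.{u} → Ordinal.{u}, ∀ a : Ordinal.{u}, a.toZFSet ∈ D →
        ∃ i < τ', g i = a

/-- COV. The dichotomy for an arbitrary set `x` and an arbitrary strong limit cardinal. -/
def T_COV : Prop := ∀ δ : Ordinal.{u}, Extendible δ → ∀ L : Cardinal.{u}, δ < L.ord →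
  (∀ c < L, (2 : Cardinal.{u}) ^ c < L) → ∀ M : Cardinal.{u}, M.IsRegular → M.ord < δ →
    ∀ K : Cardinal.{u}, K.IsRegular → L < K → ∀ x : ZFSet.{u},
      CvD δ L x ∨ ∃ τ T, MsrK (fun y => y = x) M.ord K L τ T

end HD.SD

namespace Pool.Agent.H54.SD

open _root_.HD _root_.HD.SD
open _root_.HD.NF (w0)

theorem pf_COV (r' : RK.{u}) (hTRE : T_TRE.{u}) (hDXS : T_DXS.{u}) (hFWM : T_FWM.{u})
    (hDXP : T_DXP.{u}) (hODY : T_ODY.{u}) : T_COV.{u} := by
  intro δ hδ L hδL hlim M hM hMδ K hK hLK x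
  obtain ⟨en, hen⟩ := All.en.{u}
  obtain ⟨η, -, θ, j, hE⟩ := All.xa δ hδ 0
  obtain ⟨Dc, hDc, -, -, hD0⟩ := All.xb δ η θ j hE
  have hL : ℵ₀ < L := hD0.trans (Cardinal.ord_lt_ord.1 (hDc ▸ hδL))
  have hδK : δ < K.ord := hδL.trans (Cardinal.ord_lt_ord.2 hLK)
  by_cases hs : SplM en M.ord K.ord x L.ord
  · left
    obtain ⟨c, h1, h2⟩ := id hs
    intro τ hτ y hy
    obtain ⟨β, hβ, hβ0, hβδ, hpos⟩ := H29.SD.refM δ hδ K hK hδK M hM hMδ τ hτ
      (fun i => Sc2 en x c (y i)) fun i hi => h1 _ (hy i hi)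
    have hd : DX.{u} fun x w => Pos M.ord β {b | b ∈ Sc2 en x (w 1) (w 0)} := by
      have h0 : DX.{u} fun x w => w 0 ∈ Sc2 en x (w 2) (w 1) :=
        (hDXS en hen).2.ren fun n => if n = 0 then 0 else if n = 1 then 2 else 1
      exact dx_pos hDXP h0 M.ord β
    refine ⟨os L.ord {a | Pos M.ord β (Sc2 en x c a)}, ?_, fun z hz => ?_,
      fun i hi => ?_, ?_⟩
    · exact hODY _ hd x L.ord (fun _ => c)
    · obtain ⟨a, ha, -, rfl⟩ := mem_os.1 hz
      exact toZFSet_mem_toZFSet_iff.2 ha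
    · exact ord_mem_os.2 ⟨hy i hi, hpos i hi⟩
    · obtain ⟨τ', hτ', e, he⟩ := hFWM M.ord β (hM.1.trans_lt hβ0) (Sc2 en x c)
        fun i i' b => h2 b i i'
      refine ⟨τ', ?_, e, fun a ha => he a (ord_mem_os.1 ha).2⟩
      rw [hDc] at hβδ ⊢
      rw [Cardinal.lt_ord] at hτ' ⊢
      exact (lt_succ_iff.1 hτ').trans_lt (Cardinal.ord_lt_ord.1 hβδ)
  · right
    obtain ⟨τ, hτ, T, t1, t2, t3, t4, t5⟩ := hTRE en hen L hL hlim K hK hLK M.ord x hs
    exact msrK_of_ind r' hen hK hL hLK (fun y => y = x) (gp_eq x) (x₀ := x) rfl hτ t1 t2 t3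
      t4 fun y hy i hi => by
        have hy' : y = x := hy
        rw [hy']
        exact t5 i hi

end Pool.Agent.H54.SD
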