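import Pool.Agent.H54.SD.COV
import Pool.Agent.H98.SDT.Fin12

/-!
# MP_e37c09_lc: the theorem COV
-/

open Ordinal Cardinal Order Set
open scoped ZFSet

universe u

namespace HD.SD

theorem cov' : T_COV.{u} :=
  Pool.Agent.H54.SD.pf_COV rk tre Pool.Agent.H70.SD.pf_DXS Pool.Agent.H90.SD.pf_FWM
    Pool.Agent.H52.SD.pf_DXP Pool.Agent.H50.SD.pf_ODY

end HD.SD
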