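import Pool.Agent.H98.SD.TargetsG
import Pool.Agent.H14.SD.PSA
import Pool.Agent.H50.SD.MEC

/-!
# Row NMX (MP_e37c09_lc): in the first case the successor is not measurable
-/

open Ordinal Cardinal Order Set
open scoped ZFSet

universe u

namespace Pool.Agent.H54.SD.NMX

open _root_.HD _root_.HD.SD Pool.Agent.H45.NF
open _root_.HD.NF (w0)

theorem odp_of1 {c p z : ZFSet.{u}} (hp : NF.ODp c p) {Q : (ℕ → ZFSet.{u}) → Prop} (hQ : DZ Q)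
    (h : ∀ y, Q (cons y fun _ => p) ↔ y = z) : NF.ODp c z :=
  H14.SD.odp_trans hp (ODp.of_dz hQ h)

theorem odp_pair {c x y : ZFSet.{u}} (hx : NF.ODp c x) (hy : NF.ODp c y) :
    NF.ODp c (ZFSet.pair x y) :=
  H14.SD.odp_comp hx hy (ODp.of_dz (Q := fun v => v 0 = v 1) (DZ.eq 0 1) fun _ => Iff.rfl)

theorem odp_sing {c x : ZFSet.{u}} (hx : NF.ODp c x) : NF.ODp c {x} := by
  refine odp_of1 hx (Q := fun v => ∀ z, z ∈ v 0 ↔ z = v 1)
    (DZ.all ((DZ.mem 0 1).iff (DZ.eq 0 2))) fun y => ?_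
  constructor
  · intro h
    ext z
    rw [ZFSet.mem_singleton]
    exact h z
  · rintro rfl z
    exact ZFSet.mem_singleton

theorem odp_upair {c x y : ZFSet.{u}} (hx : NF.ODp c x) (hy : NF.ODp c y) :
    NF.ODp c {x, y} := by
  refine odp_of1 (odp_pair hx hy) (Q := fun v => ∃ a b, v 1 = ZFSet.pair a b ∧
    ∀ z, z ∈ v 0 ↔ z = a ∨ z = b) (DZ.ex (DZ.ex (DZ.and (loc_pair 3 1 0).dz
    (DZ.all ((DZ.mem 0 3).iff ((DZ.eq 0 2).or (DZ.eq 0 1))))))) fun w => ?_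
  constructor
  · rintro ⟨a, b, h1, h⟩
    have h1' : ZFSet.pair x y = ZFSet.pair a b := h1
    obtain ⟨rfl, rfl⟩ := ZFSet.pair_injective h1'
    ext z
    rw [ZFSet.mem_pair]
    exact h z
  · rintro rfl
    exact ⟨x, y, rfl, fun z => ZFSet.mem_pair⟩

theorem nc_of {A : ZFSet.{u} → Prop} {x z : ZFSet.{u}} (hx : A x) (h : NF.ODp x z)
    (h2 : ∀ y ∈ z, NC A y) : NC A z := H94.SD.nc_def.2 ⟨⟨x, hx, h⟩, h2⟩

theorem nc_pair {A : ZFSet.{u} → Prop} {x a b : ZFSet.{u}} (hx : A x) (ha : NF.ODp x a)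
    (hb : NF.ODp x b) (ha' : NC A a) (hb' : NC A b) : NC A (ZFSet.pair a b) := by
  refine nc_of hx (odp_pair ha hb) fun y hy => ?_
  unfold ZFSet.pair at hy
  rw [ZFSet.mem_pair] at hy
  rcases hy with rfl | rfl
  · refine nc_of hx (odp_sing ha) fun y hy => ?_
    rw [ZFSet.mem_singleton] at hy
    rw [hy]
    exact ha'
  · refine nc_of hx (odp_upair ha hb) fun y hy => ?_
    rw [ZFSet.mem_pair] at hy
    rcases hy with rfl | rfl
    · exact ha'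
    · exact hb'

/-- the set of `b < κ` whose value contains `a` -/
noncomputable def XX (κ : Ordinal.{u}) (F a : ZFSet.{u}) : ZFSet.{u} :=
  (κ.toZFSet).sep fun b => ∃ z, ZFSet.pair b z ∈ F ∧ a ∈ z

theorem odp_XX {c F a : ZFSet.{u}} (κ : Ordinal.{u}) (hF : NF.ODp c F) (ha : NF.ODp c a) :
    NF.ODp c (XX κ F a) := by
  refine odp_of1 (odp_pair hF ha) (Q := fun v => ∃ F a, v 1 = ZFSet.pair F a ∧
    ∀ b, b ∈ v 0 ↔ b ∈ κ.toZFSet ∧ ∃ z, ZFSet.pair b z ∈ F ∧ a ∈ z)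
    (DZ.ex (DZ.ex (DZ.and (loc_pair 3 1 0).dz (DZ.all ((DZ.mem 0 3).iff (DZ.and ?_
      (DZ.ex ((loc_pmem 1 0 3).dz.and (DZ.mem 2 0))))))))) fun w => ?_
  · exact DZ.od (R := fun k v => v 0 ∈ k) (OD.ordinal κ) (DZ.mem 1 0)
  · constructor
    · rintro ⟨F', a', h1, h⟩
      have h1' : ZFSet.pair F a = ZFSet.pair F' a' := h1
      obtain ⟨rfl, rfl⟩ := ZFSet.pair_injective h1'
      ext z
      rw [XX, ZFSet.mem_sep]
      exact h z
    · rintro rfl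
      refine ⟨F, a, rfl, fun z => ?_⟩
      show z ∈ XX κ F a ↔ _
      rw [XX, ZFSet.mem_sep]

theorem odp_sd {c y : ZFSet.{u}} (κ : Ordinal.{u}) (hy : NF.ODp c y) :
    NF.ODp c (κ.toZFSet \ y) := by
  refine odp_of1 hy (Q := fun v => ∀ b, b ∈ v 0 ↔ b ∈ κ.toZFSet ∧ b ∉ v 1)
    (DZ.all ((DZ.mem 0 1).iff (DZ.and ?_ (DZ.mem 0 2).not))) fun w => ?_
  · exact DZ.od (R := fun k v => v 0 ∈ k) (OD.ordinal κ) (DZ.mem 1 0)
  · constructor
    · intro h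
      ext z
      rw [ZFSet.mem_sdiff]
      exact h z
    · rintro rfl z
      exact ZFSet.mem_sdiff

/-- `Y` is `XX κ F a` or its complement -/
def CC (κ : Ordinal.{u}) (F a Y : ZFSet.{u}) : Prop :=
  (∀ b, b ∈ Y ↔ b ∈ κ.toZFSet ∧ ∃ z, ZFSet.pair b z ∈ F ∧ a ∈ z) ∨
    ∀ b, b ∈ Y ↔ b ∈ κ.toZFSet ∧ ¬ ∃ z, ZFSet.pair b z ∈ F ∧ a ∈ z

theorem aux_pq (p q : Prop) : (p ∧ ¬ q) ↔ (p ∧ ¬ (p ∧ q)) := by tauto

theorem CC_iff {κ : Ordinal.{u}} {F a Y : ZFSet.{u}} :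
    CC κ F a Y ↔ Y = XX κ F a ∨ Y = κ.toZFSet \ XX κ F a := by
  unfold CC
  refine or_congr ?_ ?_
  · constructor
    · intro h
      ext z
      rw [XX, ZFSet.mem_sep]
      exact h z
    · rintro rfl z
      exact ZFSet.mem_sep
  · constructor
    · intro h
      ext z
      rw [ZFSet.mem_sdiff, XX, ZFSet.mem_sep, h z]
      exact aux_pq _ _
    · rintro rfl z
      rw [ZFSet.mem_sdiff, XX, ZFSet.mem_sep]
      exact (aux_pq _ _).symm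

/-- the function which chooses `XX κ F a` or its complement -/
noncomputable def ff (l κ : Ordinal.{u}) (F U : ZFSet.{u}) : ZFSet.{u} :=
  (ZFSet.prod l.toZFSet U).sep fun p => ∃ a Y, p = ZFSet.pair a Y ∧ CC κ F a Y

theorem mem_ff {l κ : Ordinal.{u}} {F U p : ZFSet.{u}} : p ∈ ff l κ F U ↔
    ∃ a Y, p = ZFSet.pair a Y ∧ a ∈ l.toZFSet ∧ Y ∈ U ∧ CC κ F a Y := by
  rw [ff, ZFSet.mem_sep, ZFSet.mem_prod]
  constructor
  · rintro ⟨⟨a, ha, Y, hY, h1⟩, a', Y', h2, h3⟩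
    rw [h1] at h2
    obtain ⟨rfl, rfl⟩ := ZFSet.pair_injective h2
    exact ⟨a, Y, h1, ha, hY, h3⟩
  · rintro ⟨a, Y, h1, ha, hY, h3⟩
    exact ⟨⟨a, ha, Y, hY, h1⟩, a, Y, h1, h3⟩

theorem pair_mem_ff {l κ : Ordinal.{u}} {F U a Y : ZFSet.{u}} : ZFSet.pair a Y ∈ ff l κ F U ↔
    a ∈ l.toZFSet ∧ Y ∈ U ∧ CC κ F a Y := by
  rw [mem_ff]
  constructor
  · rintro ⟨a', Y', h1, h2⟩
    obtain ⟨rfl, rfl⟩ := ZFSet.pair_injective h1
    exact h2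
  · exact fun h => ⟨a, Y, rfl, h⟩

theorem odp_ff {c F U : ZFSet.{u}} (l κ : Ordinal.{u}) (hF : NF.ODp c F) (hU : NF.ODp c U) :
    NF.ODp c (ff l κ F U) := by
  have hk : ∀ i : ℕ, DZ.{u} fun v => v i ∈ κ.toZFSet := fun i =>
    DZ.od (R := fun k v => v i ∈ k) (OD.ordinal κ) (DZ.mem (i + 1) 0)
  have hl : ∀ i : ℕ, DZ.{u} fun v => v i ∈ l.toZFSet := fun i =>
    DZ.od (R := fun k v => v i ∈ k) (OD.ordinal l) (DZ.mem (i + 1) 0)
  have hz : DZ.{u} fun v => ∃ z, ZFSet.pair (v 0) z ∈ v 5 ∧ v 2 ∈ z :=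
    DZ.ex (R := fun z v => ZFSet.pair (v 0) z ∈ v 5 ∧ v 2 ∈ z)
      ((loc_pmem 1 0 6).dz.and (DZ.mem 3 0))
  refine odp_of1 (odp_pair hF hU) (Q := fun v => ∃ F U, v 1 = ZFSet.pair F U ∧
    ∀ p, p ∈ v 0 ↔ ∃ a Y, p = ZFSet.pair a Y ∧ a ∈ l.toZFSet ∧ Y ∈ U ∧
      ((∀ b, b ∈ Y ↔ b ∈ κ.toZFSet ∧ ∃ z, ZFSet.pair b z ∈ F ∧ a ∈ z) ∨
        ∀ b, b ∈ Y ↔ b ∈ κ.toZFSet ∧ ¬ ∃ z, ZFSet.pair b z ∈ F ∧ a ∈ z))
    (DZ.ex (DZ.ex (DZ.and (loc_pair 3 1 0).dz (DZ.all ((DZ.mem 0 3).iff (DZ.ex (DZ.ex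
      (DZ.and (loc_pair 2 1 0).dz (DZ.and (hl 1) (DZ.and (DZ.mem 0 3) (DZ.or
        (DZ.all ((DZ.mem 0 1).iff ((hk 0).and hz)))
        (DZ.all ((DZ.mem 0 1).iff ((hk 0).and hz.not)))))))))))))) fun w => ?_
  constructor
  · rintro ⟨F', U', h1, h⟩
    have h1' : ZFSet.pair F U = ZFSet.pair F' U' := h1
    obtain ⟨rfl, rfl⟩ := ZFSet.pair_injective h1'
    ext p
    rw [mem_ff]
    exact h p
  · rintro rfl
    exact ⟨F, U, rfl, fun p => mem_ff⟩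

end Pool.Agent.H54.SD.NMX

namespace Pool.Agent.H54.SD

open _root_.HD _root_.HD.SD Pool.Agent.H45.NF NMX
open _root_.HD.NF (w0)

theorem pf_NMX (hWIE : T_WIE.{u}) : T_NMX.{u} := by
  intro L hL A x hx hA hall
  rintro ⟨U, hU⟩
  set κ : Ordinal.{u} := (succ L).ord with hκ
  have hLκ : L.ord < κ := Cardinal.ord_lt_ord.2 (lt_succ L)
  obtain ⟨F, hF, hFf, hFi⟩ := hWIE L hL x hall
  have hUx : NF.ODp x U := by
    obtain ⟨y, hy, hyU⟩ := (H94.SD.nc_def.1 hU.inN).1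
    exact H14.SD.odp_trans (hA y hy) hyU
  have hord : ∀ a : Ordinal.{u}, NF.ODp x a.toZFSet := fun a =>
    ODp.of_dz (Q := fun v => v 0 = a.toZFSet) (DZ.eqOrd a 0) fun y => Iff.rfl
  have hncx : ∀ z, NF.ODp x z → z ⊆ κ.toZFSet → NC A z := fun z hz hzs =>
    H50.SD.MEC.nc_sub ⟨x, hx, hz⟩ hzs
  have hXs : ∀ a, XX κ F a ⊆ κ.toZFSet := fun a z hz => (ZFSet.mem_sep.1 hz).1
  have hXn : ∀ a ∈ L.ord.toZFSet, NC A (XX κ F a) := fun a ha => by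
    obtain ⟨b, hb, rfl⟩ := mem_toZFSet_iff.1 ha
    exact hncx _ (odp_XX κ hF (hord b)) (hXs _)
  -- the function
  have hfn : ZFSet.IsFunc L.ord.toZFSet U (ff L.ord κ F U) := by
    refine ⟨fun p hp => (ZFSet.mem_sep.1 hp).1, fun a ha => ?_⟩
    have h1 := hU.ultra _ (hXn a ha) (hXs a)
    by_cases h2 : XX κ F a ∈ U
    · refine ⟨XX κ F a, pair_mem_ff.2 ⟨ha, h2, CC_iff.2 (Or.inl rfl)⟩, fun Y hY => ?_⟩
      obtain ⟨-, h3, h4⟩ := pair_mem_ff.1 hY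
      rcases CC_iff.1 h4 with h5 | h5
      · exact h5
      · rw [h5] at h3
        exact absurd h3 (h1.1 h2)
    · have h6 : κ.toZFSet \ XX κ F a ∈ U := by
        by_contra h7
        exact h2 (h1.2 h7)
      refine ⟨_, pair_mem_ff.2 ⟨ha, h6, CC_iff.2 (Or.inr rfl)⟩, fun Y hY => ?_⟩
      obtain ⟨-, h3, h4⟩ := pair_mem_ff.1 hY
      rcases CC_iff.1 h4 with h5 | h5
      · rw [h5] at h3
        exact absurd h3 h2
      · exact h5
  have hfN : NC A (ff L.ord κ F U) := by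
    refine nc_of hx (odp_ff L.ord κ hF hUx) fun p hp => ?_
    obtain ⟨a, Y, rfl, ha, hY, h3⟩ := mem_ff.1 hp
    obtain ⟨b, hb, rfl⟩ := mem_toZFSet_iff.1 ha
    have hYo : NF.ODp x Y := by
      rcases CC_iff.1 h3 with h4 | h4
      · rw [h4]
        exact odp_XX κ hF (hord b)
      · rw [h4]
        exact odp_sd κ (odp_XX κ hF (hord b))
    exact nc_pair hx (hord b) hYo (H50.SD.MEC.nc_ord ⟨x, hx⟩ b) (hncx Y hYo (hU.sub Y hY))
  have hX := hU.compl L.ord hLκ _ hfN hfn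
  set X := (κ.toZFSet).sep fun b => ∀ a y, ZFSet.pair a y ∈ ff L.ord κ F U → b ∈ y with hXdef
  -- two elements of `X` have the same value
  have hval : ∀ b ∈ κ.toZFSet, ∃ z, z ⊆ L.ord.toZFSet ∧ ZFSet.pair b z ∈ F ∧
      ∀ z', ZFSet.pair b z' ∈ F → z' = z := fun b hb => by
    obtain ⟨z, hz, hz'⟩ := hFf.2 b hb
    refine ⟨z, ?_, hz, hz'⟩
    have := (ZFSet.pair_mem_prod.1 (hFf.1 hz)).2
    exact ZFSet.mem_powerset.1 this
  have hsame : ∀ b ∈ X, ∀ b' ∈ X, b = b' := by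
    intro b hb b' hb'
    obtain ⟨hbk, hb1⟩ := ZFSet.mem_sep.1 hb
    obtain ⟨hbk', hb1'⟩ := ZFSet.mem_sep.1 hb'
    obtain ⟨z, hz1, hz2, hz3⟩ := hval b hbk
    obtain ⟨z', hz1', hz2', hz3'⟩ := hval b' hbk'
    have h1 : ∀ a ∈ L.ord.toZFSet, (a ∈ z ↔ b ∈ XX κ F a) := fun a _ => by
      rw [XX, ZFSet.mem_sep]
      constructor
      · exact fun h => ⟨hbk, z, hz2, h⟩
      · rintro ⟨-, z0, h2, h3⟩
        rwa [← hz3 z0 h2]
    have h1' : ∀ a ∈ L.ord.toZFSet, (a ∈ z' ↔ b' ∈ XX κ F a) := fun a _ => by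
      rw [XX, ZFSet.mem_sep]
      constructor
      · exact fun h => ⟨hbk', z', hz2', h⟩
      · rintro ⟨-, z0, h2, h3⟩
        rwa [← hz3' z0 h2]
    have h2 : ∀ a ∈ L.ord.toZFSet, (b ∈ XX κ F a ↔ b' ∈ XX κ F a) := fun a ha => by
      obtain ⟨Y, hY, -⟩ := hfn.2 a ha
      have h3 := hb1 a Y hY
      have h3' := hb1' a Y hY
      rcases CC_iff.1 (pair_mem_ff.1 hY).2.2 with h4 | h4
      · rw [h4] at h3 h3'
        exact ⟨fun _ => h3', fun _ => h3⟩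
      · rw [h4, ZFSet.mem_sdiff] at h3 h3'
        exact ⟨fun h => absurd h h3.2, fun h => absurd h h3'.2⟩
    have hzz : z = z' := by
      ext a
      constructor
      · intro h
        exact (h1' a (hz1 h)).2 ((h2 a (hz1 h)).1 ((h1 a (hz1 h)).1 h))
      · intro h
        exact (h1 a (hz1' h)).2 ((h2 a (hz1' h)).2 ((h1' a (hz1' h)).1 h))
    obtain ⟨c, hc, rfl⟩ := mem_toZFSet_iff.1 hbk
    obtain ⟨c', hc', rfl⟩ := mem_toZFSet_iff.1 hbk'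
    subst hzz
    rcases lt_trichotomy c c' with h3 | h3 | h3
    · exact absurd hz2' (hFi c c' z h3 hc' hz2)
    · rw [h3]
    · exact absurd hz2 (hFi c' c z h3 hc hz2')
  -- the empty set is not in `U`
  have hemp : (∅ : ZFSet.{u}) ∉ U := by
    intro h
    have h0 : NC A (∅ : ZFSet.{u}) := (H94.SD.nc_def.1 hU.inN).2 _ h
    have h1 : κ.toZFSet ∈ U := hU.up _ h _ (H50.SD.MEC.nc_ord ⟨x, hx⟩ κ)
      (ZFSet.empty_subset _) (fun _ h => h)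
    have h2 := (hU.ultra ∅ h0 (ZFSet.empty_subset _)).1 h
    refine h2 ?_
    have h3 : κ.toZFSet \ (∅ : ZFSet.{u}) = κ.toZFSet := by
      ext z
      rw [ZFSet.mem_sdiff]
      exact ⟨fun h => h.1, fun h => ⟨h, ZFSet.notMem_empty z⟩⟩
    rwa [h3]
  by_cases hne : ∃ b, b ∈ X
  · obtain ⟨b, hb⟩ := hne
    have h1 : X = {b} := by
      ext z
      rw [ZFSet.mem_singleton]
      constructor
      · exact fun h => hsame z h b hb
      · rintro rfl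
        exact hb
    obtain ⟨c, hc, rfl⟩ := mem_toZFSet_iff.1 (ZFSet.mem_sep.1 hb).1
    rw [h1] at hX
    exact hU.nonpr c hc hX
  · have h1 : X = ∅ := by
      ext z
      constructor
      · exact fun h => absurd ⟨z, h⟩ hne
      · exact fun h => absurd h (ZFSet.notMem_empty z)
    rw [h1] at hX
    exact hemp hX

end Pool.Agent.H54.SD
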