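import Pool.Agent.H98.SD.TargetsH
import Pool.Agent.H54.SD.NMX

/-!
# Row SCY (MP_e37c09_lc): if all subsets of `L` are definable from `x` and ordinals then the
successor of `L` is correct
-/

open Ordinal Cardinal Order Set
open scoped ZFSet

universe u

namespace Pool.Agent.H54.SD.SCY

open _root_.HD _root_.HD.SD HD.PRK Pool.Agent.H45.NF
open _root_.HD.NF (w0)

/-- `f` is an isomorphism between the relation given by `z` on `l` and `β`. -/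
def Iso (l β : Ordinal.{u}) (R : ZFSet.{u} → ZFSet.{u} → ZFSet.{u} → Prop) (z f : ZFSet.{u}) :
    Prop :=
  (∀ p, p ∈ f → ∃ a b, p = ZFSet.pair a b ∧ a ∈ l.toZFSet ∧ b ∈ β.toZFSet) ∧
  (∀ a, a ∈ l.toZFSet → ∃ b, ZFSet.pair a b ∈ f) ∧
  (∀ b, b ∈ β.toZFSet → ∃ a, ZFSet.pair a b ∈ f) ∧
  ∀ a a' b b', ZFSet.pair a b ∈ f → ZFSet.pair a' b' ∈ f → (b ∈ b' ↔ R a a' z)

theorem dz_iso (l β : Ordinal.{u}) {R : ZFSet.{u} → ZFSet.{u} → ZFSet.{u} → Prop}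
    (hR : DZ fun v => R (v 0) (v 1) (v 2)) : DZ fun v => Iso l β R (v 1) (v 0) := by
  have hk : ∀ i : ℕ, DZ.{u} fun v => v i ∈ β.toZFSet := fun i =>
    DZ.od (R := fun k v => v i ∈ k) (OD.ordinal β) (DZ.mem (i + 1) 0)
  have hl : ∀ i : ℕ, DZ.{u} fun v => v i ∈ l.toZFSet := fun i =>
    DZ.od (R := fun k v => v i ∈ k) (OD.ordinal l) (DZ.mem (i + 1) 0)
  refine DZ.and (DZ.all ((DZ.mem 0 1).imp (DZ.ex (DZ.ex ?_)))) (DZ.and (DZ.all ((hl 0).imp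
    (DZ.ex ?_))) (DZ.and (DZ.all ((hk 0).imp (DZ.ex ?_))) (DZ.all (DZ.all (DZ.all (DZ.all
      (DZ.imp ?_ (DZ.imp ?_ (DZ.iff ?_ ?_)))))))))
  · exact (loc_pair 2 1 0).dz.and ((hl 1).and (hk 0))
  · exact (loc_pmem 1 0 2).dz
  · exact (loc_pmem 0 1 2).dz
  · exact (loc_pmem 3 1 4).dz
  · exact (loc_pmem 2 0 4).dz
  · exact DZ.mem 1 0
  · exact hR.ren fun n => if n = 0 then 3 else if n = 1 then 2 else 5

theorem Iso.fn {l β : Ordinal.{u}} {R : ZFSet.{u} → ZFSet.{u} → ZFSet.{u} → Prop}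
    {z f : ZFSet.{u}} (h : Iso l β R z f) {a b b' : ZFSet.{u}} (hb : ZFSet.pair a b ∈ f)
    (hb' : ZFSet.pair a b' ∈ f) : b = b' := by
  have h0 : ∀ b, ZFSet.pair a b ∈ f → ∃ c < β, b = c.toZFSet := fun b hb => by
    obtain ⟨a1, b1, h1, -, h2⟩ := h.1 _ hb
    obtain ⟨rfl, rfl⟩ := ZFSet.pair_injective h1
    obtain ⟨c, hc, h3⟩ := mem_toZFSet_iff.1 h2
    exact ⟨c, hc, by rw [h3]⟩
  obtain ⟨c, -, rfl⟩ := h0 b hb
  obtain ⟨c', -, rfl⟩ := h0 b' hb'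
  have h1 := h.2.2.2 _ _ _ _ hb hb'
  have h2 := h.2.2.2 _ _ _ _ hb' hb
  rw [toZFSet_mem_toZFSet_iff] at h1 h2
  rcases lt_trichotomy c c' with h3 | h3 | h3
  · exact absurd (h2.2 (h1.1 h3)) (lt_asymm h3)
  · rw [h3]
  · exact absurd (h1.2 (h2.1 h3)) (lt_asymm h3)

theorem Iso.le {l β : Ordinal.{u}} {R : ZFSet.{u} → ZFSet.{u} → ZFSet.{u} → Prop}
    {z f f' : ZFSet.{u}} (h : Iso l β R z f) (h' : Iso l β R z f') : ∀ p ∈ f, p ∈ f' := by
  have key : ∀ b : Ordinal.{u}, ∀ a, ZFSet.pair a b.toZFSet ∈ f → ZFSet.pair a b.toZFSet ∈ f' := by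
    intro b
    induction b using WellFoundedLT.induction with
    | ind b ih =>
      intro a hab
      have ha : a ∈ l.toZFSet := by
        obtain ⟨a1, b1, h1, h2, -⟩ := h.1 _ hab
        obtain ⟨rfl, rfl⟩ := ZFSet.pair_injective h1
        exact h2
      have hb : b.toZFSet ∈ β.toZFSet := by
        obtain ⟨a1, b1, h1, -, h2⟩ := h.1 _ hab
        obtain ⟨rfl, rfl⟩ := ZFSet.pair_injective h1
        exact h2
      obtain ⟨b0, hb0⟩ := h'.2.1 a ha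
      have hb0' : b0 ∈ β.toZFSet := by
        obtain ⟨a1, b1, h1, -, h2⟩ := h'.1 _ hb0
        obtain ⟨rfl, rfl⟩ := ZFSet.pair_injective h1
        exact h2
      obtain ⟨b', hb', rfl⟩ := mem_toZFSet_iff.1 hb0'
      rcases lt_trichotomy b' b with h3 | h3 | h3
      · obtain ⟨a1, ha1⟩ := h.2.2.1 _ hb0'
        have h4 := ih b' h3 a1 ha1
        have h5 := (h.2.2.2 _ _ _ _ ha1 hab).1 (toZFSet_mem_toZFSet_iff.2 h3)
        have h6 := (h'.2.2.2 _ _ _ _ h4 hb0).2 h5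
        exact absurd (toZFSet_mem_toZFSet_iff.1 h6) (lt_irrefl _)
      · rw [← h3]
        exact hb0
      · obtain ⟨a1, ha1⟩ := h'.2.2.1 _ hb
        have h5 := (h'.2.2.2 _ _ _ _ ha1 hb0).1 (toZFSet_mem_toZFSet_iff.2 h3)
        have ha1l : a1 ∈ l.toZFSet := by
          obtain ⟨a2, b2, h1, h2, -⟩ := h'.1 _ ha1
          obtain ⟨rfl, rfl⟩ := ZFSet.pair_injective h1
          exact h2
        obtain ⟨b1, hb1⟩ := h.2.1 a1 ha1l
        have h6 := (h.2.2.2 _ _ _ _ hb1 hab).2 h5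
        obtain ⟨c, hc, rfl⟩ := mem_toZFSet_iff.1 h6
        have h7 := ih c hc a1 hb1
        have h8 := h'.fn h7 ha1
        exact absurd (Ordinal.toZFSet_injective h8) hc.ne
  intro p hp
  obtain ⟨a, b, rfl, -, hb⟩ := h.1 p hp
  obtain ⟨c, -, rfl⟩ := mem_toZFSet_iff.1 hb
  exact key c a hp

theorem odp_iso {x z f : ZFSet.{u}} (hz : NF.ODp x z) (l β : Ordinal.{u})
    {R : ZFSet.{u} → ZFSet.{u} → ZFSet.{u} → Prop} (hR : DZ fun v => R (v 0) (v 1) (v 2))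
    (h : Iso l β R z f) : NF.ODp x f := by
  refine NMX.odp_of1 hz (Q := fun v => Iso l β R (v 1) (v 0)) (dz_iso l β hR) fun y => ?_
  constructor
  · intro h1
    ext p
    exact ⟨Iso.le h1 h p, Iso.le h h1 p⟩
  · rintro rfl
    exact h

/-- a bijection -/
theorem bij {L : Cardinal.{u}} {β : Ordinal.{u}} (h1 : L.ord < β) (h2 : β < (succ L).ord) :
    ∃ g : Ordinal.{u} → Ordinal.{u}, (∀ a < L.ord, g a < β) ∧ ∀ b < β, ∃ a < L.ord, g a = b := by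
  have h3 : β.card = L := by
    refine le_antisymm ?_ ?_
    · exact lt_succ_iff.1 (Cardinal.lt_ord.1 h2)
    · have := Ordinal.card_le_card h1.le
      rwa [Cardinal.card_ord] at this
  have h4 : #(Iio L.ord) = #(Iio β) := by
    rw [Cardinal.mk_Iio_ordinal, Cardinal.mk_Iio_ordinal, Cardinal.card_ord, h3]
  obtain ⟨e⟩ := Cardinal.eq.1 h4
  classical
  refine ⟨fun a => if h : a < L.ord then (e ⟨a, h⟩).1 else 0, fun a ha => ?_, fun b hb => ?_⟩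
  · simp only [dif_pos ha]
    exact (e ⟨a, ha⟩).2
  · refine ⟨(e.symm ⟨b, hb⟩).1, (e.symm ⟨b, hb⟩).2, ?_⟩
    have h5 : (e.symm ⟨b, hb⟩).1 < L.ord := (e.symm ⟨b, hb⟩).2
    simp only [dif_pos h5, Subtype.coe_eta, Equiv.apply_symm_apply]

end Pool.Agent.H54.SD.SCY

namespace Pool.Agent.H54.SD

open _root_.HD _root_.HD.SD HD.PRK Pool.Agent.H45.NF SCY
open _root_.HD.NF (w0)

theorem pf_SCY : T_SCY.{u} := by
  intro L hL x hall β hβ1 hβ2
  obtain ⟨t, ht, hinj, hlt⟩ := t_PR.{u}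
  obtain ⟨g, hg1, hg2⟩ := bij hβ1 hβ2
  obtain ⟨Qt, hQt, hQ⟩ := ht
  set z : ZFSet.{u} := os L.ord {d | ∃ a a', a < L.ord ∧ a' < L.ord ∧ d = t a a' ∧ g a < g a'}
    with hz
  have hzs : z ⊆ L.ord.toZFSet := fun w hw => by
    obtain ⟨a, ha, -, rfl⟩ := mem_os.1 hw
    exact mem_toZFSet_iff.2 ⟨a, ha, rfl⟩
  set R : ZFSet.{u} → ZFSet.{u} → ZFSet.{u} → Prop := fun a a' z =>
    ∃ c, c ∈ z ∧ Qt (cons a (cons a' fun _ => c)) with hR
  have hRd : DZ fun v => R (v 0) (v 1) (v 2) := by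
    refine DZ.ex (R := fun c v => c ∈ v 2 ∧ Qt (cons (v 0) (cons (v 1) fun _ => c)))
      ((DZ.mem 0 3).and ?_)
    refine (hQt.ren fun n => if n = 0 then 1 else if n = 1 then 2 else 0).congr fun v => ?_
    have : (cons (v 1) (cons (v 2) fun _ => v 0)) =
        fun n => v (if n = 0 then 1 else if n = 1 then 2 else 0) := by
      funext n
      rcases n with _ | _ | n <;> simp
    exact this ▸ Iff.rfl
  have hRt : ∀ a a' c : Ordinal.{u}, Qt (cons a.toZFSet (cons a'.toZFSet fun _ => c.toZFSet)) ↔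
      c = t a a' := by
    intro a a' c
    have h1 := (hQ (cns a (cns a' fun _ => c))).symm
    have h2 : ov (cns a (cns a' fun _ => c)) =
        cons a.toZFSet (cons a'.toZFSet fun _ => c.toZFSet) := by
      funext n
      rcases n with _ | _ | n <;> rfl
    rw [h2] at h1
    exact h1
  set f : ZFSet.{u} := (ZFSet.prod L.ord.toZFSet β.toZFSet).sep
    fun p => ∃ a < L.ord, p = ZFSet.pair a.toZFSet (g a).toZFSet with hf
  have hmem : ∀ p, p ∈ f ↔ ∃ a < L.ord, p = ZFSet.pair a.toZFSet (g a).toZFSet := by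
    intro p
    rw [hf, ZFSet.mem_sep]
    constructor
    · exact fun h => h.2
    · rintro ⟨a, ha, rfl⟩
      exact ⟨ZFSet.pair_mem_prod.2 ⟨toZFSet_mem_toZFSet_iff.2 ha,
        toZFSet_mem_toZFSet_iff.2 (hg1 a ha)⟩, a, ha, rfl⟩
  have hiso : Iso L.ord β R z f := by
    refine ⟨fun p hp => ?_, fun a ha => ?_, fun b hb => ?_, fun a a' b b' h1 h2 => ?_⟩
    · obtain ⟨a, ha, rfl⟩ := (hmem p).1 hp
      exact ⟨_, _, rfl, toZFSet_mem_toZFSet_iff.2 ha, toZFSet_mem_toZFSet_iff.2 (hg1 a ha)⟩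
    · obtain ⟨c, hc, rfl⟩ := mem_toZFSet_iff.1 ha
      exact ⟨_, (hmem _).2 ⟨c, hc, rfl⟩⟩
    · obtain ⟨c, hc, rfl⟩ := mem_toZFSet_iff.1 hb
      obtain ⟨a, ha, rfl⟩ := hg2 c hc
      exact ⟨_, (hmem _).2 ⟨a, ha, rfl⟩⟩
    · obtain ⟨c, hc, h3⟩ := (hmem _).1 h1
      obtain ⟨rfl, rfl⟩ := ZFSet.pair_injective h3
      obtain ⟨c', hc', h4⟩ := (hmem _).1 h2
      obtain ⟨rfl, rfl⟩ := ZFSet.pair_injective h4
      rw [toZFSet_mem_toZFSet_iff]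
      constructor
      · intro h5
        exact ⟨(t c c').toZFSet, mem_os.2 ⟨t c c', hlt L hL.le c hc c' hc',
          ⟨c, c', hc, hc', rfl, h5⟩, rfl⟩, (hRt c c' _).2 rfl⟩
      · rintro ⟨w, hw, h5⟩
        obtain ⟨d, -, ⟨a, a', ha, ha', h6, h7⟩, rfl⟩ := mem_os.1 hw
        have h8 := (hRt c c' d).1 h5
        rw [h8] at h6
        obtain ⟨rfl, rfl⟩ := hinj _ _ _ _ h6
        exact h7
  refine ⟨f, odp_iso (hall z hzs) L.ord β hRd hiso, ⟨fun p hp => (ZFSet.mem_sep.1 hp).1,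
    fun a ha => ?_⟩, fun b hb => ?_⟩
  · obtain ⟨b, hb⟩ := hiso.2.1 a ha
    exact ⟨b, hb, fun b' hb' => hiso.fn hb' hb⟩
  · obtain ⟨a, ha, h1⟩ := hg2 b hb
    refine ⟨a, ha, (hmem _).2 ⟨a, ha, ?_⟩⟩
    rw [h1]

end Pool.Agent.H54.SD
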